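import Pool.Agent.H62.HM.ExB
import Pool.Agent.H62.HM.ExC
import Pool.Agent.H62.HM.Struct
import Pool.Agent.H62.HM.Gon
import Pool.Agent.H62.HM.Unord
import Pool.Agent.H22.NB.Conv

/-!
# Balanced configurations of catenoidal necks: ends and genus

`Balanced N n Q p`: ends of logarithmic growths `Q 0, ..., Q (N - 1)` (sum zero), `n k` necks at the
points `p k i` between the ends `k` and `k + 1`, all forces vanish (Traizet's configurations).
`genus N n` is `∑ (n k - 1)`.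
-/

set_option autoImplicit false

namespace Pool.Agent.Results.MP_50ee63_gt.BalancedConfigurations

open Finset Pool.Agent.H62.HM

theorem result :
    -- (1) ordered growths
    (∀ (N : ℕ) (n : ℕ → ℕ) (Q : ℕ → ℝ) (p : (k : ℕ) → Fin (n k) → ℂ), 2 ≤ N →
      Balanced N n Q p → (∀ j, j + 1 < N → Q (j + 1) ≤ Q j) → (∃ j, j < N ∧ Q j ≠ 0) →
      (N - 1) * (N - 2) ≤ 2 * genus N n ∧ N ≤ genus N n + 2) ∧
    -- (2) strictly ordered growths
    (∀ (N : ℕ) (n : ℕ → ℕ) (Q : ℕ → ℝ) (p : (k : ℕ) → Fin (n k) → ℂ), 3 ≤ N →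
      Balanced N n Q p → (∀ j, j + 1 < N → Q (j + 1) < Q j) →
      (N - 1) * (N - 2) + 2 ≤ 2 * genus N n) ∧
    -- (3) the bound (1) is attained for every number of ends
    (∀ N : ℕ, 2 ≤ N → ∃ (n : ℕ → ℕ) (Q : ℕ → ℝ) (p : (k : ℕ) → Fin (n k) → ℂ),
      Balanced N n Q p ∧ (∀ j, j + 1 < N → Q (j + 1) ≤ Q j) ∧ Q 0 ≠ 0 ∧
      2 * genus N n = (N - 1) * (N - 2)) ∧
    -- (4) the bound (2) is attained for three and for four ends
    (∀ N : ℕ, N = 3 ∨ N = 4 → ∃ (n : ℕ → ℕ) (Q : ℕ → ℝ) (p : (k : ℕ) → Fin (n k) → ℂ),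
      Balanced N n Q p ∧ (∀ j, j + 1 < N → Q (j + 1) < Q j) ∧
      2 * genus N n = (N - 1) * (N - 2) + 2) ∧
    -- (4') one neck and regular polygons, strictly decreasing growths
    (∀ N m : ℕ, 4 ≤ N → 2 * N ≤ 3 * m →
      ∃ (n : ℕ → ℕ) (Q : ℕ → ℝ) (p : (k : ℕ) → Fin (n k) → ℂ),
        Balanced N n Q p ∧ (∀ j, j + 1 < N → Q (j + 1) < Q j) ∧ n 0 = 1 ∧
        (∀ k, 1 ≤ k → n k = m) ∧ genus N n = (N - 2) * (m - 1)) ∧
    -- (5) without the order: a linear bound, attained for every genus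
    (∀ (N : ℕ) (n : ℕ → ℕ) (Q : ℕ → ℝ) (p : (k : ℕ) → Fin (n k) → ℂ), 2 ≤ N →
      Balanced N n Q p → (∀ k, k + 1 < N → size n Q k ≠ 0) → N ≤ 2 * genus N n + 2) ∧
    (∀ G : ℕ, ∃ (n : ℕ → ℕ) (Q : ℕ → ℝ) (p : (k : ℕ) → Fin (n k) → ℂ),
      Balanced (2 * G + 2) n Q p ∧ (∀ k, k + 1 < 2 * G + 2 → 0 < size n Q k) ∧
      genus (2 * G + 2) n = G) ∧
    -- (6) a bound for arbitrary growths
    (∀ (N : ℕ) (n : ℕ → ℕ) (Q : ℕ → ℝ) (p : (k : ℕ) → Fin (n k) → ℂ), 2 ≤ N →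
      Balanced N n Q p →
      2 * (∑ k ∈ range (N - 1), ∑ j ∈ range (k + 1), Q j) ^ 2 ≤
        (genus N n + (N - 1) : ℕ) * ∑ j ∈ range N, Q j ^ 2) ∧
    -- (7) the configurations of the equality case of (1)
    (∀ (N : ℕ) (n : ℕ → ℕ) (Q : ℕ → ℝ) (p : (k : ℕ) → Fin (n k) → ℂ), 3 ≤ N →
      (∀ k, k + 1 < N → Function.Injective (p k)) → ∑ j ∈ range N, Q j = 0 →
      (∀ j, j + 1 < N → Q (j + 1) ≤ Q j) → (∃ j, j < N ∧ Q j ≠ 0) →
      ((Balanced N n Q p ∧ 2 * genus N n = (N - 1) * (N - 2)) ↔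
        ∃ P : Polynomial ℂ, P.natDegree = N - 1 ∧
          (((∀ j, 1 ≤ j → j < N → Q j = Q (N - 1)) ∧ ∀ k, k + 1 < N → n k + k + 1 = N ∧
              ∀ z, (Polynomial.derivative^[k] P).eval z = 0 ↔ ∃ i, p k i = z) ∨
            ((∀ j, j + 1 < N → Q j = Q 0) ∧ ∀ k, k + 1 < N → n k = k + 1 ∧
              ∀ z, (Polynomial.derivative^[N - 2 - k] P).eval z = 0 ↔ ∃ i, p k i = z)))) := by
  refine ⟨fun N n Q p hN h hQ hne => ?_, fun N n Q p hN h hQ => bound_strict hN h hQ, ?_,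
    ?_, fun N m hN hm => exists_strict N m hN hm, fun N n Q p hN h hs => bound_unordered hN h hs,
    attained12, ?_, ?_⟩
  · have h1 := bound hN h hQ hne
    refine ⟨h1, ?_⟩
    obtain ⟨m, rfl⟩ : ∃ m, N = m + 2 := ⟨N - 2, by omega⟩
    have e1 : m + 2 - 1 = m + 1 := rfl
    have e2 : m + 2 - 2 = m := rfl
    rw [e1, e2] at h1
    by_contra hc
    push Not at hc
    nlinarith
  · intro N hN
    obtain ⟨n, Q, p, h, hQ, h0, hs⟩ := Pool.Agent.H22.NB.exists_balanced N hN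
    refine ⟨n, Q, p, h, hQ, h0, ?_⟩
    obtain ⟨m, rfl⟩ : ∃ m, N = m + 2 := ⟨N - 2, by omega⟩
    have e1 : m + 2 - 1 = m + 1 := rfl
    have e2 : m + 2 - 2 = m := rfl
    rw [e1] at hs
    rw [genus_add h] at hs
    rw [e1, e2]
    nlinarith
  · rintro N (rfl | rfl)
    · refine ⟨fun _ => 2, Q3, p3, ex3, ?_, by rw [genus3]⟩
      intro j hj
      have hj' : j < 2 := by omega
      interval_cases j
      · show (0 : ℝ) < 1
        norm_num
      · show (-1 : ℝ) < 0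
        norm_num
    · obtain ⟨a, b, hab⟩ := ex5
      refine ⟨n5, Q5, p5 a b, hab, ?_, by rw [genus5]⟩
      intro j hj
      have hj' : j < 3 := by omega
      interval_cases j
      · show (43 : ℝ) < 57
        norm_num
      · show (40 : ℝ) < 43
        norm_num
      · show (-140 : ℝ) < 40
        norm_num
  · intro N n Q p hN h
    obtain ⟨m, rfl⟩ : ∃ m, N = m + 2 := ⟨N - 2, by omega⟩
    have h1 := cauchy h
    have e1 : m + 2 - 1 = m + 1 := rfl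
    rw [e1, ← genus_add h]
    push_cast
    exact h1
  · intro N n Q p hN hinj hsum hQ hne
    exact classify hN hinj hsum hQ hne

end Pool.Agent.Results.MP_50ee63_gt.BalancedConfigurations
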